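import Pool.Agent.Y14.RE.Fin

set_option autoImplicit false
open Filter Topology SimpleGraph

namespace Pool.Agent.Results.MP_9bed89_co.SecondOrderTerm

/-- The diagonal two-colour Ramsey number `r(G,G)` of a finite graph `G`: the least `N` such that for
every colouring of the edges of `K_N` with two colours (the edges of `H` and the edges of its
complement) one of the two colour classes contains a copy of `G`. -/
noncomputable def ramseyNumber {k : ℕ} (G : SimpleGraph (Fin k)) : ℕ :=
  sInf {N : ℕ | ∀ H : SimpleGraph (Fin N), G.IsContained H ∨ G.IsContained Hᶜ}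

/-- The least value of `r(G,G)` over all finite graphs `G` with exactly `n` edges. -/
noncomputable def R (n : ℕ) : ℕ :=
  sInf {r : ℕ | ∃ (k : ℕ) (G : SimpleGraph (Fin k)), G.edgeSet.ncard = n ∧ ramseyNumber G = r}

/-- **The second order term of Harary's function.** With `L = log₂ n` and `ll = log₂ log₂ n`: for
every `0 < ε < 1` and all large `n`,
`(n / L) (1 + (1 - ε) ll / L) ≤ R(n) ≤ (n / L) (1 + (6 + ε) ll / L)`.
In particular `R(n) = (n / log₂ n) (1 + Θ(log log n / log n))`, and `R(n) log₂ n / n → 1`. -/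
theorem result :
    (∀ ε : ℝ, 0 < ε → ε < 1 → ∀ᶠ n : ℕ in atTop,
      (n : ℝ) / Real.logb 2 n *
          (1 + (1 - ε) * (Real.logb 2 (Real.logb 2 n) / Real.logb 2 n)) ≤ R n ∧
      (R n : ℝ) ≤ (n : ℝ) / Real.logb 2 n *
          (1 + (6 + ε) * (Real.logb 2 (Real.logb 2 n) / Real.logb 2 n))) ∧
    Tendsto (fun n : ℕ => (R n : ℝ) / (n / Real.logb 2 n)) atTop (𝓝 1) := by
  refine ⟨fun ε h0 h1 => ?_, ?_⟩
  · filter_upwards [Pool.Agent.Y14.RE.lower_second ε h0 h1,
      Pool.Agent.Y14.RE.upper_second ε h0 h1] with n h2 h3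
    exact ⟨h2, h3⟩
  · exact Pool.Agent.Results.MP_9bed89_co.EdgeAsymptotic.result

end Pool.Agent.Results.MP_9bed89_co.SecondOrderTerm
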